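import Mathlib
import Pool.Agent.Lib.MP_77d395_lc.Forcing

/-!
# The clauses of the forcing relation and the forced statement

A statement about the extension by a poset `P` is given by its truth value, the predicate on `P`
which says which conditions force it.  The clauses `fAll` (`∀`), `fEx` (`∃`), `fIff` (`↔`), the names
`SetName P X` of subsets of a ground model set `X` and the statement `fEnum P Ω` (the subsets of `ℕ`
are listed as `E_ξ`, `ξ ∈ Ω`) are those of `Pool.Agent.Lib.MP_77d395_lc`.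
-/

set_option autoImplicit false

open Pool.Agent.Lib.MP_77d395_lc (SetName fAll fEx fIff fEnum)

namespace Pool.Agent.Lib.MP_034dba_lc

variable {P : Type} [Preorder P]

/-- a statement about ground model objects which does not depend on the generic filter -/
def fCheck (P : Type) (a : Prop) : P → Prop := fun _ => a

/-- `p ⊩ φ ∧ ψ` -/
def fAnd (φ ψ : P → Prop) : P → Prop := fun p => φ p ∧ ψ p

/-- `p ⊩ φ → ψ` -/
def fImp (φ ψ : P → Prop) : P → Prop := fun p => ∀ q ≤ p, φ q → ψ q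

/-- `p ⊩ ¬ φ` -/
def fNot (φ : P → Prop) : P → Prop := fun p => ∀ q ≤ p, ¬ φ q

/-- `p ⊩ f is a function from X to Y` (`f` is a name for a subset of `X × Y`) -/
def fFun {X Y : Type} (f : SetName P (X × Y)) : P → Prop :=
  fAnd (fAll fun x : X => fEx fun y : Y => f.mem (x, y))
    (fAll fun x : X => fAll fun y : Y => fAll fun z : Y =>
      fImp (f.mem (x, y)) (fImp (f.mem (x, z)) (fCheck P (y = z))))

/-- `p ⊩ there is a map from ℕ onto Ω` -/
def fCtbl (P : Type) [Preorder P] (Ω : Type) : P → Prop :=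
  fEx fun g : SetName P (ℕ × Ω) => fAnd (fFun g) (fAll fun ξ : Ω => fEx fun n : ℕ => g.mem (n, ξ))

/-- the sum of `2 ^ (-i - 1)` over the members `i < l` of `s` -/
noncomputable def lo (l : ℕ) (s : Finset ℕ) : ℝ :=
  ∑ i ∈ Finset.range l, if i ∈ s then (1 / 2 : ℝ) ^ (i + 1) else 0

/-- `z + lo l s` has distance less than `2 * 2 ^ (-l)` from `H + t` -/
def Near (H : Set ℝ) (t : ℝ) (z : ℤ) (l : ℕ) (s : Finset ℕ) : Prop :=
  ∃ x ∈ H, |x + t - (z + lo l s)| < 2 * (1 / 2) ^ l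

/-- The real number with the integral part `z` and the binary digits `b ⊆ ℕ` (`z` plus the sum of
`2 ^ (-i - 1)` over `i ∈ b`) is in the closure of `H + t`. -/
def In (H : Set ℝ) (t : ℝ) (z : ℤ) (b : Set ℕ) : Prop :=
  ∀ (l : ℕ) (s : Finset ℕ), (∀ i < l, i ∈ b ↔ i ∈ s) → Near H t z l s

/-- the real number with the integral part `z` and the binary digits `b` is in `B + t`, where `B` is
the set `⋂ j, ⋃ m, closure (F j m)` -/
def InTile (F : ℕ → ℕ → Set ℝ) (t : ℝ) (z : ℤ) (b : Set ℕ) : Prop :=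
  ∀ j, ∃ m, In (F j m) t z b

/-- There is no map from `ℕ` onto `Ω`, the subsets of `ℕ` are not listed as `E_ξ`, `ξ ∈ Ω`, and each
real number is in exactly one of the sets `B + t γ`, `γ ∈ Ω`. -/
def Tiling (Ω : Type) (F : ℕ → ℕ → Set ℝ) (t : Ω → ℝ) : Prop :=
  (¬ ∃ g : ℕ → Ω, ∀ ξ, ∃ n, g n = ξ) ∧
  (¬ ∃ E : Set (Ω × ℕ), ∀ x : Set ℕ, ∃ ξ : Ω, ∀ n : ℕ, n ∈ x ↔ (ξ, n) ∈ E) ∧
  (∀ (z : ℤ) (b : Set ℕ), ∃ γ, InTile F (t γ) z b) ∧
  ∀ (z : ℤ) (b : Set ℕ) (γ β : Ω), γ ≠ β → ¬ (InTile F (t γ) z b ∧ InTile F (t β) z b)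

/-- `p ⊩ b and s have the same members below l` -/
def fDig (b : SetName P ℕ) (l : ℕ) (s : Finset ℕ) : P → Prop :=
  fAll fun i : ℕ => fImp (fCheck P (i < l)) (fIff (b.mem i) (fCheck P (i ∈ s)))

/-- `p ⊩ In H t z b` -/
def fIn (H : Set ℝ) (t : ℝ) (z : ℤ) (b : SetName P ℕ) : P → Prop :=
  fAll fun l : ℕ => fAll fun s : Finset ℕ => fImp (fDig b l s) (fCheck P (Near H t z l s))

/-- `p ⊩ InTile F t z b` -/
def fInTile (F : ℕ → ℕ → Set ℝ) (t : ℝ) (z : ℤ) (b : SetName P ℕ) : P → Prop :=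
  fAll fun j : ℕ => fEx fun m : ℕ => fIn (F j m) t z b

/-- `p ⊩ Tiling Ω F t` -/
def fTiling (P : Type) [Preorder P] (Ω : Type) (F : ℕ → ℕ → Set ℝ) (t : Ω → ℝ) : P → Prop :=
  fAnd (fNot (fCtbl P Ω)) (fAnd (fNot (fEnum P Ω)) (fAnd
    (fAll fun z : ℤ => fAll fun b : SetName P ℕ => fEx fun γ : Ω => fInTile F (t γ) z b)
    (fAll fun z : ℤ => fAll fun b : SetName P ℕ => fAll fun γ : Ω => fAll fun β : Ω =>
      fImp (fCheck P (γ ≠ β)) (fNot (fAnd (fInTile F (t γ) z b) (fInTile F (t β) z b))))))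

end Pool.Agent.Lib.MP_034dba_lc
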