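import Pool.Agent.Lib.MP_034dba_lc.Mg.G001

set_option autoImplicit false

open Cardinal
open Pool.Agent.Lib.MP_77d395_lc (SetName fAll fEx fIff fEnum)

namespace Pool.Agent.Lib.MP_034dba_lc

-- BEGIN M1

/-- Under CH there is a nonempty poset which forces the tiling.  Proof: `Ω`, `t'` from
`exists_tiling`, `t γ : ℝ` a representative of `t' γ`, `F j m = {x | (x : S1) ∈ FF j m}` (closed by
`isClosed_FF`), `P = Cond I` for a type `I` with `#I = succ 𝔠`; `not_fCtbl`, `not_fEnum`,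
`forced_cover`, `forced_disj` (`x - t γ ∈ F j m` for all `j` and some `m` means
`(x : S1) - t' γ ∈ BB`). -/
theorem exists_forcing (hCH : (𝔠 : Cardinal.{0}) = ℵ₁) :
    ∃ (Ω : Type) (F : ℕ → ℕ → Set ℝ) (t : Ω → ℝ) (P : Type) (_ : Preorder P), Nonempty P ∧
      ∀ p : P, fTiling P Ω F t p := by
  obtain ⟨Ω, t', hΩ, hdisj, hcov⟩ := exists_tiling hCH
  have hrep : ∀ γ, ∃ x : ℝ, (x : S1) = t' γ := fun γ => QuotientAddGroup.mk_surjective (t' γ)
  choose t ht using hrep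
  obtain ⟨I, hI⟩ : ∃ I : Type, #I = Order.succ 𝔠 := ⟨(Order.succ 𝔠).out, Cardinal.mk_out _⟩
  have hcI : 𝔠 < #I := by rw [hI]; exact Order.lt_succ _
  have hinf : Infinite I := Cardinal.infinite_iff.2 (aleph0_le_continuum.trans hcI.le)
  obtain ⟨p0, -⟩ := exists_cond I
  have hcl : ∀ j m, closure {x : ℝ | (x : S1) ∈ FF j m} = {x : ℝ | (x : S1) ∈ FF j m} := by
    intro j m
    exact ((isClosed_FF j m).preimage (AddCircle.continuous_mk' 1)).closure_eq
  have hBB : ∀ (x : ℝ) (γ : Ω), (∀ j, ∃ m, x - t γ ∈ closure {x : ℝ | (x : S1) ∈ FF j m}) →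
      (x : S1) - t' γ ∈ BB := by
    intro x γ h
    refine Set.mem_iInter.2 fun j => ?_
    obtain ⟨m, hm⟩ := h j
    rw [hcl j m] at hm
    refine Set.mem_iUnion.2 ⟨m, ?_⟩
    have h1 : ((x - t γ : ℝ) : S1) ∈ FF j m := hm
    rwa [AddCircle.coe_sub, ht γ] at h1
  refine ⟨Ω, fun j m => {x : ℝ | (x : S1) ∈ FF j m}, t, Cond I, inferInstance, ⟨p0⟩,
    fun p => ⟨?_, ?_, ?_, ?_⟩⟩
  · refine not_fCtbl ?_ p
    rw [← Cardinal.aleph0_lt_mk_iff, hΩ]
    exact aleph0_lt_aleph_one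
  · exact not_fEnum (by rw [hΩ, hCH]) hcI p
  · intro z b
    refine forced_cover (fun f hf => ?_) z b p
    obtain ⟨γ, Q, hQ, hQ'⟩ := hcov f hf
    exact ⟨γ, Q, hQ, fun a ha => by rw [ht γ]; exact hQ' a ha⟩
  · intro z b γ β q _ hne
    refine forced_disj (fun x hx => ?_) z b q
    exact hdisj γ β hne x (hBB x γ hx.1) (hBB x β hx.2)

-- END M1

end Pool.Agent.Lib.MP_034dba_lc
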